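import Pool.Agent.R550.TE.Red

/-!
# `T_{h+1}`-Free Edge Deletion is W[1]-hard for the solution size
-/

namespace Pool.Agent.Results.MP_613513_lc.SolutionSizeW1Hard

open Pool.Agent.NPC Pool.Agent.H557R2.Fpt Pool.Agent.R550.TE

/-- `T_{h+1}`-Free Edge Deletion, parameterized by the number `k` of the deleted edges (with `h`
given in the input), is `W[1]`-hard. -/
theorem result : W1Hard treeFreeEdgeDeletion := w1Hard

end Pool.Agent.Results.MP_613513_lc.SolutionSizeW1Hard
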